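import Pool.Agent.helper70.BND.SpecH

/-! # Row bh:THS (MP_376aaf_an): the group data and the axioms for rank one -/

set_option autoImplicit false

open scoped Topology
open Finset

namespace Pool.Agent.BND.EX

theorem THS (hMKL : MKL_stmt) (hBDN : BDN_stmt) (hBAS : BAS_stmt) : THS_stmt := by
  intro H _ P g H' σ M w S hσ hst hsp
  constructor
  · refine ⟨fun m v hv => (hσ m).pos v hv, fun m => ?_, fun m v hv => (hst m).th_eq v hv,
      fun m z hz v' hv' => (hst m).kill z hz v' hv', hsp, fun m z => hBDN H H' (σ m).A (σ m).th (hσ m).lat (hσ m).gl z⟩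
    rw [← (hσ m).unit]
    apply Finset.sum_congr rfl
    intro v hv
    rw [Finset.mem_range] at hv
    show (σ m).A.l.h v • (σ m).th v = (σ m).A.h v • (σ m).th v
    rw [(hMKL (σ m).A (hσ m).gl).2.1 v hv]
  · intro hR
    refine ⟨fun m => {e | (σ m).A.n + (σ m).A.n * (σ m).A.n ≤ e ∧ e < (σ m).A.l.N}, ?_, ?_, ?_, ?_⟩
    · rintro m e ⟨h1, h2⟩
      exact ⟨le_trans (Nat.le_add_right _ _) h1, h2⟩
    · intro m e he hne
      apply (hBAS H H' (σ m).A (σ m).th (hσ m).lat (hσ m).gl).2 e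
      by_contra h
      exact hne ⟨not_lt.mp h, he⟩
    · intro m nn
      obtain ⟨z, hz⟩ := (hBAS H H' (σ m).A (σ m).th (hσ m).lat (hσ m).gl).1 nn
      exact ⟨z, fun e he => hz e he.1 he.2⟩
    · intro m lam nn hl hn
      obtain ⟨Lam, nn', h1, h2, h3, h4⟩ := (hst m).lft hR lam nn hl fun e h1 h2 => hn e ⟨h1, h2⟩
      refine ⟨Lam, nn', h1, ?_, h3, h4⟩
      intro e' he' hne
      apply h2
      by_contra h
      exact hne ⟨not_lt.mp h, he'⟩

end Pool.Agent.BND.EX
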